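import Pool.Agent.helper54.TS.Spec

set_option autoImplicit false

/-!
# TS (MP_2b41e9_nt), row ts:DIG: periodic digits give a finite orbit
-/

namespace Pool.Agent.TS

open Pool.Agent.PSA (IsSalem Indep Fac)

theorem DIG_min (p : ℕ) (b : ℕ → ℝ) (hp : 0 < p) (hper : ∀ n, b (n + p) = b n)
    (h1 : ∀ n, 1 < b n) : ∃ c : ℝ, 1 < c ∧ ∀ n, c ≤ b n := by
  obtain ⟨m, -, hm⟩ := Finset.exists_min_image (Finset.range p) b
    ⟨0, Finset.mem_range.2 hp⟩
  refine ⟨b m, h1 m, fun n => ?_⟩
  have hP : Function.Periodic b p := hper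
  rw [← hP.map_mod_nat n]
  exact hm _ (Finset.mem_range.2 (Nat.mod_lt _ hp))

theorem DIG_zero (D b : ℕ → ℝ) (N i : ℕ) (c : ℝ) (hc : 1 < c) (hb : ∀ n, c ≤ b n)
    (hD : ∀ n, |D n| ≤ 1) (hrec : ∀ n, N ≤ n → D (n + 1) = b (n + i) * D n) :
    ∀ n, N ≤ n → D n = 0 := by
  intro n hn
  by_contra hne
  have hpos : 0 < |D n| := abs_pos.2 hne
  have hgrow : ∀ m, c ^ m * |D n| ≤ |D (n + m)| := by
    intro m
    induction m with
    | zero => simp
    | succ m ih =>
      have h1 := hrec (n + m) (by omega)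
      have h2 : n + (m + 1) = n + m + 1 := by omega
      rw [h2, h1, abs_mul, abs_of_pos (by linarith [hb (n + m + i)] : 0 < b (n + m + i)), pow_succ]
      calc c ^ m * c * |D n| = c * (c ^ m * |D n|) := by ring
        _ ≤ b (n + m + i) * |D (n + m)| :=
          mul_le_mul (hb _) ih (by positivity) (by linarith [hb (n + m + i)])
  obtain ⟨m, hm⟩ := pow_unbounded_of_one_lt (1 / |D n|) hc
  have h3 := hgrow m
  have h4 := hD (n + m)
  rw [div_lt_iff₀ hpos] at hm
  linarith

theorem DIG : DIG_stmt := by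
  intro p b hp hper h1 i hEv x hx
  have hx1 : x = 1 := by
    rcases hx with h | h
    · exact h.2
    · exact absurd h.1 (lt_irrefl _)
  rw [hx1]
  obtain ⟨r, hr⟩ : ∃ r : ℕ → ℝ, r = orb b (fun _ => 1) (fun _ => 1) i 1 := ⟨_, rfl⟩
  rw [← hr]
  have hr0 : r 0 = 1 := by rw [hr]; rfl
  have hrs : ∀ n, r (n + 1) = Int.fract (b (i + n) * r n) := by
    intro n
    rw [hr]
    show rho 1 1 (Int.fract (b (i + n) * orb b (fun _ => 1) (fun _ => 1) i 1 n)) = _
    unfold rho
    rw [if_pos (Int.fract_lt_one _)]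
  have hG : IsGreedy b i r := ⟨hr0, fun n => by
    rw [hrs n, add_comm i n]
    rfl⟩
  obtain ⟨N, T, hT, hdig⟩ := hEv r hG
  have hb01 : ∀ n, 0 ≤ r n ∧ r n ≤ 1 := by
    intro n
    cases n with
    | zero => rw [hr0]; norm_num
    | succ n => rw [hrs n]; exact ⟨Int.fract_nonneg _, (Int.fract_lt_one _).le⟩
  have hP : Function.Periodic b p := hper
  have hbT : ∀ n, b (n + T * p) = b n := by
    intro n
    have := hP.nat_mul T n
    simpa using this
  have hdk : ∀ k n, N ≤ n → ⌊b (n + k * T + i) * r (n + k * T)⌋ = ⌊b (n + i) * r n⌋ := by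
    intro k
    induction k with
    | zero => intro n _; simp
    | succ k ih =>
      intro n hn
      have h2 := hdig (n + k * T) (by omega)
      have h3 : n + (k + 1) * T = n + k * T + T := by ring
      rw [h3, h2]
      exact ih n hn
  have hdT : ∀ n, N ≤ n → ⌊b (n + T * p + i) * r (n + T * p)⌋ = ⌊b (n + i) * r n⌋ := by
    intro n hn
    have := hdk p n hn
    rwa [mul_comm p T] at this
  obtain ⟨c, hc, hcb⟩ := DIG_min p b hp hper h1
  have hzero := DIG_zero (fun n => r (n + T * p) - r n) b N i c hc hcb (fun n => by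
    have h2 := hb01 (n + T * p)
    have h3 := hb01 n
    rw [abs_le]
    constructor <;> linarith) (fun n hn => by
    have h2 := hG.2 n
    have h3 := hG.2 (n + T * p)
    have h4 : n + 1 + T * p = n + T * p + 1 := by omega
    have h5 : b (n + T * p + i) = b (n + i) := by
      have : n + T * p + i = n + i + T * p := by omega
      rw [this, hbT]
    have h6 := hdT n hn
    rw [h4, h3, h2, h6, h5]
    ring)
  have hrT : ∀ n, N ≤ n → r (n + T * p) = r n := by
    intro n hn
    have := hzero n hn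
    linarith
  have hTp : 0 < T * p := Nat.mul_pos hT hp
  have hall : ∀ n, ∃ m, m < N + T * p ∧ r m = r n := by
    intro n
    induction n using Nat.strong_induction_on with
    | _ n ih =>
      by_cases hn : n < N + T * p
      · exact ⟨n, hn, rfl⟩
      · obtain ⟨m, hm1, hm2⟩ := ih (n - T * p) (by omega)
        refine ⟨m, hm1, ?_⟩
        have h2 := hrT (n - T * p) (by omega)
        have h3 : n - T * p + T * p = n := by omega
        rw [h3] at h2
        rw [hm2, h2]
  refine Set.Finite.subset ((Finset.range (N + T * p)).image r).finite_toSet ?_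
  rintro _ ⟨n, rfl⟩
  obtain ⟨m, hm1, hm2⟩ := hall n
  exact Finset.mem_coe.2 (Finset.mem_image.2 ⟨m, Finset.mem_range.2 hm1, hm2⟩)

end Pool.Agent.TS
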